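import Pool.Agent.N662.SE.Stm
import Pool.Agent.TH967.DP.Paths

/-!
# Project SE: pathwise tail bound (`S_PP`)
-/

set_option autoImplicit false

open MeasureTheory ProbabilityTheory Filter Topology

namespace Pool.Agent.N340.SE

open TH967.DP Pool.Agent.N662.SE

theorem pp : S_PP := by
  classical
  intro d β h η n i hin k s u M hM
  obtain ⟨T, rfl⟩ := Nat.exists_eq_add_of_le hin
  have hTi : i + T - i = T := by omega
  rw [hTi] at hM
  unfold part
  rw [sum_append, Finset.mul_sum]
  refine Finset.sum_le_sum fun w _ => ?_
  rw [Set.indicator_of_mem (Set.mem_univ w)]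
  set A : Set (Fin (i + T) → Step d) := {w | u ≤ s * (pos w i k : ℝ)} with hA
  set F : (Fin (i + T) → Step d) → ℝ :=
    fun w => Real.exp (β * energy η w + ∑ k, h k * (pos w (i + T) k : ℝ)) with hF
  -- the factorisation
  have hfac : ∀ v : Fin T → Step d, F (Fin.append w v) =
      Real.exp (β * energy η w + ∑ j, h j * (pos w i j : ℝ)) *
        Real.exp (β * energy (shift i (pos w i) η) v + ∑ j, h j * (pos v T j : ℝ)) := by
    intro v
    rw [hF]
    simp only
    rw [← Real.exp_add, energy_append, pos_append_right]
    congr 1
    have e : ∑ j, h j * (((pos w i + pos v T) j : ℤ) : ℝ) =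
        ∑ j, h j * (pos w i j : ℝ) + ∑ j, h j * (pos v T j : ℝ) := by
      rw [← Finset.sum_add_distrib]
      refine Finset.sum_congr rfl fun j _ => ?_
      rw [Pi.add_apply]
      push_cast
      ring
    rw [e]
    ring
  -- the indicator
  have hind : ∀ v : Fin T → Step d, A.indicator F (Fin.append w v) ≤
      Real.exp (-u + s * (pos w i k : ℝ)) * F (Fin.append w v) := by
    intro v
    have hpos : 0 < F (Fin.append w v) := Real.exp_pos _
    by_cases hv : Fin.append w v ∈ A
    · rw [Set.indicator_of_mem hv]
      have h1 : u ≤ s * (pos (Fin.append w v) i k : ℝ) := hv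
      rw [pos_append_left w v le_rfl] at h1
      exact le_mul_of_one_le_left hpos.le (Real.one_le_exp (by linarith))
    · rw [Set.indicator_of_notMem hv]
      positivity
  -- the part after time `i`
  have hZ : ∑ v : Fin T → Step d,
      Real.exp (β * energy (shift i (pos w i) η) v + ∑ j, h j * (pos v T j : ℝ)) ≤ Real.exp M := by
    have h1 := hM (pos w i) (fun j => by
      have := abs_pos_le w i j
      push_cast
      omega)
    have e : part β h (fun j y => η (i + j) (pos w i + y)) T Set.univ =
        ∑ v : Fin T → Step d,
          Real.exp (β * energy (shift i (pos w i) η) v + ∑ j, h j * (pos v T j : ℝ)) := by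
      unfold part
      refine Finset.sum_congr rfl fun v _ => ?_
      rw [Set.indicator_of_mem (Set.mem_univ v)]
      rfl
    rw [e] at h1
    rcases (Finset.sum_nonneg (s := Finset.univ) fun (v : Fin T → Step d) _ => (Real.exp_pos
      (β * energy (shift i (pos w i) η) v + ∑ j, h j * (pos v T j : ℝ))).le).eq_or_lt with h2 | h2
    · rw [← h2]
      exact (Real.exp_pos _).le
    · rwa [Real.log_le_iff_le_exp h2] at h1
  calc ∑ v : Fin T → Step d, A.indicator F (Fin.append w v) ≤
        ∑ v : Fin T → Step d, Real.exp (-u + s * (pos w i k : ℝ)) * F (Fin.append w v) :=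
        Finset.sum_le_sum fun v _ => hind v
    _ = Real.exp (-u + s * (pos w i k : ℝ)) *
        Real.exp (β * energy η w + ∑ j, h j * (pos w i j : ℝ)) *
        ∑ v : Fin T → Step d,
          Real.exp (β * energy (shift i (pos w i) η) v + ∑ j, h j * (pos v T j : ℝ)) := by
        rw [Finset.mul_sum]
        refine Finset.sum_congr rfl fun v _ => ?_
        rw [hfac]
        ring
    _ ≤ Real.exp (-u + s * (pos w i k : ℝ)) *
        Real.exp (β * energy η w + ∑ j, h j * (pos w i j : ℝ)) * Real.exp M :=
        mul_le_mul_of_nonneg_left hZ (by positivity)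
    _ = Real.exp (-u + M) *
        Real.exp (β * energy η w + ∑ j, (h + Pi.single k s : Fin d → ℝ) j * (pos w i j : ℝ)) := by
        have e : ∑ j, (h + Pi.single k s : Fin d → ℝ) j * (pos w i j : ℝ) =
            ∑ j, h j * (pos w i j : ℝ) + s * (pos w i k : ℝ) := by
          simp only [Pi.add_apply, add_mul, Finset.sum_add_distrib]
          congr 1
          rw [Finset.sum_eq_single k]
          · rw [Pi.single_eq_same]
          · intro j _ hj
            rw [Pi.single_eq_of_ne hj, zero_mul]
          · intro hk
            exact absurd (Finset.mem_univ k) hk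
        rw [e, ← Real.exp_add, ← Real.exp_add, ← Real.exp_add]
        congr 1
        ring

end Pool.Agent.N340.SE
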